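import Mathlib

namespace Pool.Agent.Results.MP_449ba1_co.KOne

/-- `u` is a strongly 1-abelian `n`th power: nonempty and with the same letter counts as some
`z z ... z` (`n` copies, `z` nonempty). -/
def StrongPow {m : ℕ} (n : ℕ) (u : List (Fin m)) : Prop :=
  u ≠ [] ∧ ∃ z : List (Fin m), z ≠ [] ∧ ∀ a, u.count a = ((List.replicate n z).flatten).count a

/-- No factor (contiguous subword) of `w` is a strongly 1-abelian `n`th power. -/
def Avoids {m : ℕ} (n : ℕ) (w : List (Fin m)) : Prop := ∀ u, u <:+: w → ¬StrongPow n u

lemma cnt {m : ℕ} (n : ℕ) (z : List (Fin m)) (a : Fin m) :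
    ((List.replicate n z).flatten).count a = n * z.count a := by
  induction n with
  | zero => simp
  | succ n ih => rw [List.replicate_succ, List.flatten_cons, List.count_append, ih]; ring

lemma sp_iff {m : ℕ} (n : ℕ) (u : List (Fin m)) :
    StrongPow n u ↔ u ≠ [] ∧ ∀ a, n ∣ u.count a := by
  constructor
  · rintro ⟨h, z, -, hz⟩
    exact ⟨h, fun a => ⟨_, by rw [hz, cnt]⟩⟩
  · rintro ⟨h, hd⟩
    choose c hc using hd
    have hz : ∀ a, (∑ b, Multiset.replicate (c b) b).toList.count a = c a := by
      intro a
      rw [← Multiset.coe_count, Multiset.coe_toList, Multiset.count_sum']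
      simp [Multiset.count_replicate]
    refine ⟨h, (∑ b, Multiset.replicate (c b) b).toList, fun e => h ?_, fun a => by
      rw [cnt, hz, hc]⟩
    refine List.eq_nil_iff_forall_not_mem.2 fun a ha => ?_
    have h1 := List.count_pos_iff.2 ha
    have h2 := hz a
    rw [e] at h2
    rw [hc, ← h2] at h1
    simp at h1

def V {α : Type} (x : α) (A : List α) : ℕ → List α
  | 0 => A
  | j + 1 => A ++ x :: V x A j

def W {α : Type} (j : ℕ) : List α → List α
  | [] => []
  | x :: l => V x (W j l) j

lemma V_len {α : Type} (x : α) (A : List α) (j : ℕ) :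
    (V x A j).length + 1 = (j + 1) * (A.length + 1) := by
  induction j with
  | zero => simp [V]
  | succ j ih => simp only [V, List.length_append, List.length_cons]; rw [ih]; ring

lemma W_len {α : Type} (j : ℕ) (l : List α) : (W j l).length + 1 = (j + 1) ^ l.length := by
  induction l with
  | nil => simp [W]
  | cons x l ih => rw [W, V_len, ih, List.length_cons]; ring

lemma V_mem {α : Type} (x : α) (A : List α) (j : ℕ) (y : α) (h : y ∈ V x A j) :
    y = x ∨ y ∈ A := by
  induction j with
  | zero => exact Or.inr h
  | succ j ih =>
    simp only [V, List.mem_append, List.mem_cons] at h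
    tauto

lemma W_mem {α : Type} (j : ℕ) (l : List α) (y : α) (h : y ∈ W j l) : y ∈ l := by
  induction l with
  | nil => simp [W] at h
  | cons x l ih =>
    rcases V_mem _ _ _ _ h with h | h
    · simp [h]
    · exact List.mem_cons_of_mem _ (ih h)

lemma V_cnt {α : Type} [DecidableEq α] (x : α) (A : List α) (hx : x ∉ A) (j : ℕ) :
    (V x A j).count x = j := by
  have h0 := List.count_eq_zero.2 hx
  induction j with
  | zero => exact h0
  | succ j ih => simp [V, h0, ih]

lemma V_fac {α : Type} (x : α) (A u : List α) (hx : x ∉ u) (j : ℕ) (h : u <:+: V x A j) :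
    u <:+: A := by
  induction j with
  | zero => exact h
  | succ j ih =>
    have pre : ∀ t, t <+: x :: V x A j → x ∉ t → t = [] := by
      intro t ht hxt
      rcases List.prefix_cons_iff.1 ht with e | ⟨s, e, -⟩
      · exact e
      · exact absurd (by simp [e]) hxt
    rcases List.infix_append_iff.1 h with h | h | ⟨l1, l2, e, h1, h2⟩
    · exact h
    · rcases List.infix_cons_iff.1 h with h | h
      · rw [pre u h hx]; exact List.nil_infix
      · exact ih h
    · have := pre l2 h2 (fun hh => hx (by simp [e, hh]))
      rw [e, this, List.append_nil]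
      exact h1.isInfix

lemma W_av {m : ℕ} (j : ℕ) (l : List (Fin m)) (hl : l.Nodup) : Avoids (j + 1) (W j l) := by
  induction l with
  | nil =>
    intro u hu h
    exact h.1 (List.infix_nil.1 hu)
  | cons x l ih =>
    intro u hu h
    have hn := List.nodup_cons.1 hl
    by_cases hx : x ∈ u
    · have h1 := List.count_pos_iff.2 hx
      have h2 := hu.sublist.count_le x
      have h3 := V_cnt x (W j l) (fun hh => hn.1 (W_mem _ _ _ hh)) j
      have h4 := Nat.le_of_dvd h1 (((sp_iff _ _).1 h).2 x)
      rw [W] at h2
      have h5 : List.count x (V x (W j l) j) = j := by convert h3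
      omega
    · exact ih hn.2 u (V_fac x _ u hx j hu) h

theorem result (m n : ℕ) (hn : 2 ≤ n) :
    IsGreatest {l : ℕ | ∃ w : List (Fin m), Avoids n w ∧ w.length = l} (n ^ m - 1) := by
  obtain ⟨j, rfl⟩ : ∃ j, n = j + 1 := ⟨n - 1, by omega⟩
  constructor
  · refine ⟨W j (List.finRange m), W_av j _ (List.nodup_finRange m), ?_⟩
    have := W_len j (List.finRange m)
    rw [List.length_finRange] at this
    omega
  · rintro l ⟨w, hw, rfl⟩
    have key : ∀ a b : ℕ, a < b → b ≤ w.length →
        (fun x => (((w.take a).count x : ℕ) : ZMod (j + 1))) ≠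
          fun x => (((w.take b).count x : ℕ) : ZMod (j + 1)) := by
      intro a b hab hb e
      have h1 : w.take b = w.take a ++ (w.take b).drop a := by
        conv_lhs => rw [← List.take_append_drop a (w.take b)]
        rw [List.take_take, min_eq_left hab.le]
      refine hw ((w.take b).drop a)
        ((List.drop_suffix _ _).isInfix.trans (List.take_prefix _ _).isInfix)
        ((sp_iff _ _).2 ⟨fun h0 => ?_, fun x => ?_⟩)
      · have := congrArg List.length h0
        simp at this
        omega
      · have h2 := congrFun e x
        rw [h1, List.count_append, Nat.cast_add, left_eq_add] at h2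
        exact (ZMod.natCast_eq_zero_iff _ _).1 h2
    have h := Fintype.card_le_of_injective
      (fun (i : Fin (w.length + 1)) (x : Fin m) => (((w.take i).count x : ℕ) : ZMod (j + 1)))
      (by
        intro a b e
        have ha := a.2
        have hb := b.2
        rcases lt_trichotomy a.val b.val with h | h | h
        · exact absurd e (key a b h (by omega))
        · exact Fin.ext h
        · exact absurd e.symm (key b a h (by omega)))
    simp only [Fintype.card_fin, Fintype.card_pi, ZMod.card, Finset.prod_const,
      Finset.card_univ] at h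
    omega

end Pool.Agent.Results.MP_449ba1_co.KOne
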